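import Pool.Agent.Helper88_SA.StmtP

/-! Squad SA, module WREP (C14). -/

namespace SA.H47

open Filter Topology

theorem valid_of_HH {T x0 z : ℝ} {th : ℂ} (c : Ctx T x0 z th) {k : ℕ} (h : HH T x0 z th k) :
    ∀ m, m < 1525 + k → Valid T m := by
  intro m hm
  by_cases h1 : m < 1525
  · exact c.sim.valid m h1
  · obtain ⟨i, rfl⟩ : ∃ i, m = 1525 + i := ⟨m - 1525, by omega⟩
    exact (h i (by omega)).val

theorem past_eq (a : AlgA) {T x0 z : ℝ} {th : ℂ} (c : Ctx T x0 z th) {k : ℕ}
    (h : HH T x0 z th k) :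
    ∑ l ∈ Finset.range 1200, ∑ d ∈ Finset.Icc (1 : ℕ) 55,
      pd T (1525 + k - 1 - l) d * Gd T x0 z th d l = past T x0 z th k := by
  unfold past
  have hv := valid_of_HH c h
  -- drop l ≥ k
  have h1 : ∑ l ∈ Finset.range 1200, ∑ d ∈ Finset.Icc (1 : ℕ) 55,
      pd T (1525 + k - 1 - l) d * Gd T x0 z th d l
      = ∑ l ∈ (Finset.range 1200).filter (fun l => l < k), ∑ d ∈ Finset.Icc (1 : ℕ) 55,
      pd T (1525 + k - 1 - l) d * Gd T x0 z th d l := by
    symm
    apply Finset.sum_subset (Finset.filter_subset _ _)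
    intro l hl hl2
    rw [Finset.mem_range] at hl
    have hlk : k ≤ l := by
      by_contra hc
      exact hl2 (Finset.mem_filter.mpr ⟨Finset.mem_range.mpr hl, by omega⟩)
    apply Finset.sum_eq_zero
    intro d hd
    rw [Finset.mem_Icc] at hd
    have hm : 1525 + k - 1 - l < 1525 := by omega
    have hm2 : 171 ≤ 1525 + k - 1 - l := by omega
    have hk0 : kap T (1525 + k - 1 - l) = 0 := c.sim.kap_quiet _ hm2 hm
    have := (a.pds T (1525 + k - 1 - l) (fun m hm3 => hv m (by omega))).2.1 d
      (by rw [hk0]; omega) hd.2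
    rw [this, zero_mul]
  rw [h1]
  apply Finset.sum_bij' (fun l _ => k - 1 - l) (fun i _ => k - 1 - i)
  · intro l hl
    simp only [Finset.mem_filter, Finset.mem_range] at hl ⊢
    omega
  · intro i hi
    simp only [Finset.mem_filter, Finset.mem_range] at hi ⊢
    omega
  · intro l hl
    simp only [Finset.mem_filter, Finset.mem_range] at hl
    omega
  · intro i hi
    simp only [Finset.mem_filter, Finset.mem_range] at hi
    omega
  · intro l hl
    simp only [Finset.mem_filter, Finset.mem_range] at hl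
    have e1 : 1525 + (k - 1 - l) = 1525 + k - 1 - l := by omega
    have e2 : k - 1 - (k - 1 - l) = l := by omega
    rw [e1, e2]

/-- C14 -/
theorem wrep (a : AlgA) (sb : StateBStmt) (pr : PhrepStmt) : WrepStmt := by
  intro T x0 z th c k h hx
  have hv := valid_of_HH c h
  have hC : Cn T x0 (1525 + k) ≠ 0 := by
    intro h0
    apply hx
    unfold xin
    rw [h0]
    simp
  have hxs : ∀ i, i ≤ k → xin T x0 th (1525 + i) ≠ 0 := by
    intro i hi
    rcases Nat.lt_or_ge i k with h1 | h1
    · intro h0
      have := (h i h1).Alo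
      rw [h0, norm_zero] at this
      norm_num at this
    · have : i = k := by omega
      rw [this]; exact hx
  have hz := (pr T x0 z th c k hxs).2.2
  have hw := a.wform T x0 z th (1525 + k) c.Tl c.Tu c.rt (by omega) hv
  have hb := sb T x0 z th c k h
  have hn : 1525 + k - 1200 = 325 + k := by omega
  have hzt : zn T z (1525 + k) = ztn T x0 z (1525 + k) * Cn T x0 (1525 + k) := by
    unfold ztn
    field_simp
  rw [hn, past_eq a c h, hz, hzt] at hw
  have : Wn T (1525 + k) - Ck T x0 k * (1 - Am T x0 th k * Real.cos (omg th * pp T x0 th k)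
    + ztn T x0 z (1525 + k)) - past T x0 z th k
      = bval T (brest T x0 z th 1200) (325 + k) := by
    rw [hw]
    unfold Ck
    ring
  rw [this]
  exact hb

end SA.H47
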