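import Pool.Agent.Helper88_SA.StmtP

/-! Squad SA, module WUP (C17). -/

namespace SA.H47

open Filter Topology

theorem valid_of_HH' {T x0 z : ℝ} {th : ℂ} (c : Ctx T x0 z th) {k : ℕ} (h : HH T x0 z th k) :
    ∀ m, m < 1525 + k → Valid T m := by
  intro m hm
  by_cases h1 : m < 1525
  · exact c.sim.valid m h1
  · obtain ⟨i, rfl⟩ : ∃ i, m = 1525 + i := ⟨m - 1525, by omega⟩
    exact (h i (by omega)).val

/-- upper bound of one past pause -/
theorem one_past (a : AlgA) (b : NumA) (pr : ProdStmt) {T x0 z : ℝ} {th : ℂ}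
    (c : Ctx T x0 z th) {k : ℕ} (h : HH T x0 z th k) (i : ℕ) (hi : i < k) (hik : k ≤ i + 1200) :
    ∑ d ∈ Finset.Icc (1 : ℕ) 55, pd T (1525 + i) d * Gd T x0 z th d (k - 1 - i)
      ≤ 2.006 * Cn T x0 (1525 + k) * ((kpp_ (k - 1 - i) : ℝ) / 10 ^ 10) := by
  have hv := valid_of_HH' c h
  have hP := h i hi
  have hpd := a.pds T (1525 + i) (fun m hm => hv m (by omega))
  set l := k - 1 - i with hl
  have hl1 : l + 1 = k - i := by omega
  have hl2 : l < 1200 := by omega
  have hkap : kap T (1525 + i) ≤ 9 := hP.kle.trans (b.pass.dmax _)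
  have hx0 : 0 < x0 := by have := c.nr.x0_lo; linarith
  have hxp : 0 < x0 ^ (l + 1) := pow_pos hx0 _
  have hkp : 0 ≤ (kpp_ l : ℝ) / 10 ^ 10 := by positivity
  -- each term
  have h1 : ∀ d ∈ Finset.Icc (1 : ℕ) 55, pd T (1525 + i) d * Gd T x0 z th d l
      ≤ (d : ℝ) * pd T (1525 + i) d * (((kpp_ l : ℝ) / 10 ^ 10) / x0 ^ (l + 1)) := by
    intro d hd
    rw [Finset.mem_Icc] at hd
    by_cases hd10 : d ≤ 10
    · have h0 := (hpd.1 d hd.1 hd.2).1
      have ht := b.tab T x0 z th c.Tl c.Tu c.rt d l hd.1 hd10 hl2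
      have hk := (b.kap.kap d l hd.1 hd10 hl2).2
      have hk' : (gT d l : ℝ) + 2 ≤ (d : ℝ) * (kpp_ l : ℝ) := by exact_mod_cast hk
      have ht' := (abs_le.mp ht).2
      have h2 : x0 ^ (l + 1) * Gd T x0 z th d l ≤ (d : ℝ) * ((kpp_ l : ℝ) / 10 ^ 10) := by
        have : (gT d l : ℝ) / 10 ^ 10 + 2 / 10 ^ 10 ≤ (d : ℝ) * ((kpp_ l : ℝ) / 10 ^ 10) := by
          rw [← add_div, ← mul_div_assoc]
          exact div_le_div_of_nonneg_right hk' (by positivity)
        linarith
      have h3 : Gd T x0 z th d l ≤ (d : ℝ) * (((kpp_ l : ℝ) / 10 ^ 10) / x0 ^ (l + 1)) := by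
        rw [← mul_div_assoc, le_div_iff₀ hxp]
        linarith
      calc pd T (1525 + i) d * Gd T x0 z th d l
          ≤ pd T (1525 + i) d * ((d : ℝ) * (((kpp_ l : ℝ) / 10 ^ 10) / x0 ^ (l + 1))) :=
            mul_le_mul_of_nonneg_left h3 h0
        _ = _ := by ring
    · have h0 : pd T (1525 + i) d = 0 := hpd.2.1 d (by omega) hd.2
      rw [h0]; simp
  have h2 : ∑ d ∈ Finset.Icc (1 : ℕ) 55, pd T (1525 + i) d * Gd T x0 z th d l
      ≤ Dn T (1525 + i) * (((kpp_ l : ℝ) / 10 ^ 10) / x0 ^ (l + 1)) := by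
    rw [← hpd.2.2.1 (by omega), Finset.sum_mul]
    exact Finset.sum_le_sum h1
  have hD : Dn T (1525 + i) ≤ 2 * Cn T x0 (1525 + i) := by
    have h3 := hP.Dle
    have h4 : (Dt (cell T x0 th i) : ℝ) / 10 ^ 6 ≤ 2 := by
      have := b.pass.Dmax (cell T x0 th i)
      have h5 : (Dt (cell T x0 th i) : ℝ) ≤ 2000000 := by exact_mod_cast this
      rw [div_le_iff₀ (by positivity)]
      linarith
    have := mul_le_mul_of_nonneg_left h4 hP.Cpos.le
    linarith
  have hC := (pr T x0 z th c k h).2.2.2 (1525 + i) (1525 + k) (by omega) (by omega) (by omega)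
    (by omega)
  have e1 : 1525 + k - (1525 + i) = l + 1 := by omega
  rw [e1] at hC
  have hD2 : Dn T (1525 + i) ≤ 2.006 * Cn T x0 (1525 + k) * x0 ^ (l + 1) := by linarith
  refine h2.trans ?_
  have hq : 0 ≤ ((kpp_ l : ℝ) / 10 ^ 10) / x0 ^ (l + 1) := div_nonneg hkp hxp.le
  refine (mul_le_mul_of_nonneg_right hD2 hq).trans (le_of_eq ?_)
  field_simp

/-- C17 -/
theorem wup (a : AlgA) (b : NumA) (wr : WrepStmt) (pr : ProdStmt) : WupStmt := by
  intro T x0 z th c k h hp
  have hC := hp.Cpos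
  have hx : xin T x0 th (1525 + k) ≠ 0 := by
    intro h0
    have := hp.Alo
    rw [h0, norm_zero] at this
    norm_num at this
  have hw := (abs_le.mp (wr T x0 z th c k h hx)).2
  have hcos : -1 ≤ Real.cos (omg th * pp T x0 th k) := Real.neg_one_le_cos _
  have hA0 : 0 ≤ Am T x0 th k := norm_nonneg _
  have hA : Am T x0 th k ≤ 1.0573 := hp.Ahi
  have h1 : 1 - Am T x0 th k * Real.cos (omg th * pp T x0 th k) + ztn T x0 z (1525 + k)
      ≤ 1 + 1.0573 + 3 / 10 ^ 4 := by
    have h2 : - (Am T x0 th k * Real.cos (omg th * pp T x0 th k)) ≤ Am T x0 th k := by nlinarith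
    have := hp.zhi
    linarith
  have h2 : Ck T x0 k * (1 - Am T x0 th k * Real.cos (omg th * pp T x0 th k)
      + ztn T x0 z (1525 + k)) ≤ Cn T x0 (1525 + k) * (1 + 1.0573 + 3 / 10 ^ 4) :=
    mul_le_mul_of_nonneg_left h1 hC.le
  have h3 : past T x0 z th k ≤ 2.006 * Cn T x0 (1525 + k) * (4730000000 / 10 ^ 10) := by
    unfold past
    have h4 : ∑ i ∈ (Finset.range k).filter (fun i => k ≤ i + 1200),
        ∑ d ∈ Finset.Icc (1 : ℕ) 55, pd T (1525 + i) d * Gd T x0 z th d (k - 1 - i)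
        ≤ ∑ i ∈ (Finset.range k).filter (fun i => k ≤ i + 1200),
          2.006 * Cn T x0 (1525 + k) * ((kpp_ (k - 1 - i) : ℝ) / 10 ^ 10) := by
      apply Finset.sum_le_sum
      intro i hi
      simp only [Finset.mem_filter, Finset.mem_range] at hi
      exact one_past a b pr c h i hi.1 hi.2
    refine h4.trans ?_
    rw [← Finset.mul_sum]
    have h5 : ∑ i ∈ (Finset.range k).filter (fun i => k ≤ i + 1200),
        ((kpp_ (k - 1 - i) : ℝ) / 10 ^ 10)
        ≤ ∑ l ∈ Finset.range 1200, ((kpp_ l : ℝ) / 10 ^ 10) := by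
      have h6 : ∑ i ∈ (Finset.range k).filter (fun i => k ≤ i + 1200),
          ((kpp_ (k - 1 - i) : ℝ) / 10 ^ 10)
          = ∑ l ∈ (Finset.range 1200).filter (fun l => l < k), ((kpp_ l : ℝ) / 10 ^ 10) := by
        apply Finset.sum_bij' (fun i _ => k - 1 - i) (fun l _ => k - 1 - l)
        · intro l hl
          simp only [Finset.mem_filter, Finset.mem_range] at hl ⊢
          omega
        · intro i hi
          simp only [Finset.mem_filter, Finset.mem_range] at hi ⊢
          omega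
        · intro l hl
          simp only [Finset.mem_filter, Finset.mem_range] at hl
          omega
        · intro i hi
          simp only [Finset.mem_filter, Finset.mem_range] at hi
          omega
        · intro l hl
          rfl
      rw [h6]
      apply Finset.sum_le_sum_of_subset_of_nonneg (Finset.filter_subset _ _)
      intro i _ _
      exact div_nonneg (Nat.cast_nonneg _) (by norm_num)
    have h7 : ∑ l ∈ Finset.range 1200, ((kpp_ l : ℝ) / 10 ^ 10) ≤ 4730000000 / 10 ^ 10 := by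
      rw [← Finset.sum_div]
      apply div_le_div_of_nonneg_right _ (by positivity)
      have h8 : ((∑ l ∈ Finset.range 1200, kpp_ l : ℕ) : ℝ) ≤ ((4730000000 : ℕ) : ℝ) :=
        Nat.cast_le.mpr b.kap.kpp
      rw [Nat.cast_sum] at h8
      have h9 : ((4730000000 : ℕ) : ℝ) = 4730000000 := by norm_num
      rw [h9] at h8
      exact h8
    exact mul_le_mul_of_nonneg_left (h5.trans h7) (by positivity)
  have h4 : Ck T x0 k = Cn T x0 (1525 + k) := rfl
  rw [h4] at h2 hw
  norm_num at hw h2 h3 ⊢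
  nlinarith

end SA.H47
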